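import Mathlib

set_option autoImplicit false

/-! Normalised alternants are monotone under majorisation (two exponents are moved apart). -/

open Matrix

namespace Pool.Agent.J4H26.QB

/-- a determinant as a linear function of one row -/
theorem det_updateRow_eq {n : ℕ} (M : Matrix (Fin n) (Fin n) ℝ) (i : Fin n) (v : Fin n → ℝ) :
    (M.updateRow i v).det = ∑ j, Mᵀ.adjugate i j * v j := by
  rw [← Matrix.cramer_transpose_apply, Matrix.cramer_eq_adjugate_mulVec]
  rfl

/-- monotonicity row by row -/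
theorem mono {κ : Type*} [Fintype κ] {n : ℕ} (c : κ → ℝ) (f f' : κ → Fin n → ℝ → ℝ) (a b : Fin n → ℝ)
    (hab : ∀ i, b i < a i) (hf : ∀ q j i x, b i ≤ x → x ≤ a i → HasDerivAt (f q j) (f' q j x) x)
    (h : ∀ u : Fin n → ℝ, (∀ i, b i < u i ∧ u i < a i) → 0 ≤ ∑ q, c q * Matrix.det (Matrix.of fun i j => f' q j (u i))) :
    0 ≤ ∑ q, c q * Matrix.det (Matrix.of fun i j => f q j (a i) - f q j (b i)) := by
  classical
  have key : ∀ S : Finset (Fin n), ∀ u : Fin n → ℝ, (∀ i, b i < u i ∧ u i < a i) →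
      0 ≤ ∑ q, c q * Matrix.det (Matrix.of fun i j => if i ∈ S then f q j (a i) - f q j (b i) else f' q j (u i)) := by
    intro S
    induction S using Finset.induction_on with
    | empty =>
      intro u hu
      simpa using h u hu
    | insert i₀ S hi₀ ih =>
      intro u hu
      -- the matrix with the row `i₀` replaced
      set M : κ → Matrix (Fin n) (Fin n) ℝ := fun q =>
        Matrix.of fun i j => if i ∈ insert i₀ S then f q j (a i) - f q j (b i) else f' q j (u i) with hM
      set g : ℝ → ℝ := fun t => ∑ q, c q * ((M q).updateRow i₀ (fun j => f q j t - f q j (b i₀))).det with hg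
      have g1 : ∑ q, c q * (M q).det = g (a i₀) := by
        rw [hg]
        apply Finset.sum_congr rfl
        intro q _
        have e : (M q).updateRow i₀ (fun j => f q j (a i₀) - f q j (b i₀)) = M q := by
          ext i j
          by_cases hi : i = i₀
          · subst hi
            simp [hM]
          · rw [Matrix.updateRow_ne hi]
        simp only [e]
      have g0 : g (b i₀) = 0 := by
        rw [hg]
        apply Finset.sum_eq_zero
        intro q _
        have e : (fun j => f q j (b i₀) - f q j (b i₀)) = (0 : Fin n → ℝ) := by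
          funext j
          simp
        rw [e]
        have : ((M q).updateRow i₀ 0).det = 0 := by
          apply Matrix.det_eq_zero_of_row_eq_zero i₀
          intro j
          simp
        rw [this, mul_zero]
      have gd : ∀ t, b i₀ ≤ t → t ≤ a i₀ → HasDerivAt g
          (∑ q, c q * ((M q).updateRow i₀ (fun j => f' q j t)).det) t := by
        intro t h1 h2
        rw [hg]
        simp only [det_updateRow_eq]
        apply HasDerivAt.fun_sum
        intro q _
        apply HasDerivAt.const_mul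
        apply HasDerivAt.fun_sum
        intro j _
        apply HasDerivAt.const_mul
        exact (hf q j i₀ t h1 h2).sub_const _
      have gn : ∀ t, b i₀ < t → t < a i₀ → 0 ≤ ∑ q, c q * ((M q).updateRow i₀ (fun j => f' q j t)).det := by
        intro t h1 h2
        have := ih (Function.update u i₀ t) (by
          intro i
          by_cases hi : i = i₀
          · subst hi
            simpa using ⟨h1, h2⟩
          · rw [Function.update_of_ne hi]
            exact hu i)
        refine le_of_le_of_eq this ?_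
        apply Finset.sum_congr rfl
        intro q _
        congr 2
        ext i j
        by_cases hi : i = i₀
        · subst hi
          simp [hi₀]
        · rw [Matrix.updateRow_ne hi]
          simp [hM, hi]
      show 0 ≤ ∑ q, c q * (M q).det
      rw [g1, ← g0]
      have mon : MonotoneOn g (Set.Icc (b i₀) (a i₀)) := by
        apply monotoneOn_of_deriv_nonneg (convex_Icc _ _)
        · intro t ht
          exact (gd t ht.1 ht.2).continuousAt.continuousWithinAt
        · intro t ht
          rw [interior_Icc] at ht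
          exact (gd t ht.1.le ht.2.le).differentiableAt.differentiableWithinAt
        · intro t ht
          rw [interior_Icc] at ht
          rw [(gd t ht.1.le ht.2.le).deriv]
          exact gn t ht.1 ht.2
      exact mon ⟨le_refl _, (hab i₀).le⟩ ⟨(hab i₀).le, le_refl _⟩ (hab i₀).le
  have := key Finset.univ (fun i => (a i + b i) / 2) (fun i => by
    have := hab i
    constructor <;> linarith)
  simpa using this

/-- `∏_{i<j} (u_i - u_j)` -/
noncomputable def Dl {d : ℕ} (u : Fin d → ℝ) : ℝ := ∏ i, ∏ j ∈ Finset.Ioi i, (u i - u j)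

/-- the alternant with real exponents -/
noncomputable def AR {d : ℕ} (ν : Fin d → ℝ) (x : Fin d → ℝ) : ℝ :=
  Matrix.det (Matrix.of fun i j => x i ^ ν j)

theorem Dl_eq {d : ℕ} (u : Fin d → ℝ) : Dl u = (Matrix.vandermonde (fun i => - u i)).det := by
  rw [Matrix.det_vandermonde]
  unfold Dl
  apply Finset.prod_congr rfl
  intro i _
  apply Finset.prod_congr rfl
  intro j _
  ring

theorem Dl_perm {d : ℕ} (u : Fin d → ℝ) (σ : Equiv.Perm (Fin d)) :
    Dl (fun i => u (σ i)) = (Equiv.Perm.sign σ : ℤ) * Dl u := by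
  rw [Dl_eq, Dl_eq]
  have : Matrix.vandermonde (fun i => - u (σ i)) = (Matrix.vandermonde (fun i => - u i)).submatrix σ id := by
    ext i j
    simp [Matrix.vandermonde]
  rw [this, Matrix.det_permute]

theorem AR_perm {d : ℕ} (ν x : Fin d → ℝ) (σ : Equiv.Perm (Fin d)) :
    AR (fun i => ν (σ i)) x = (Equiv.Perm.sign σ : ℤ) * AR ν x := by
  unfold AR
  have : (Matrix.of fun i j => x i ^ ν (σ j)) = (Matrix.of fun i j => x i ^ ν j).submatrix id σ := by
    ext i j
    simp
  rw [this, Matrix.det_permute']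

theorem Dl_succ {n : ℕ} (u : Fin (n + 1) → ℝ) :
    Dl u = Dl (fun i : Fin n => u i.castSucc) * ∏ i : Fin n, (u i.castSucc - u (Fin.last n)) := by
  have e : ∀ (m : ℕ) (v : Fin m → ℝ), Dl v = ∏ i, ∏ j, if i < j then (v i - v j) else 1 := by
    intro m v
    unfold Dl
    apply Finset.prod_congr rfl
    intro i _
    rw [← Finset.prod_filter]
    apply Finset.prod_congr _ (fun _ _ => rfl)
    ext j
    simp
  rw [e, e, Fin.prod_univ_castSucc]
  have h1 : ∏ j : Fin (n + 1), (if Fin.last n < j then (u (Fin.last n) - u j) else 1) = 1 := by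
    apply Finset.prod_eq_one
    intro j _
    rw [if_neg (not_lt.2 (Fin.le_last j))]
  rw [h1, mul_one, ← Finset.prod_mul_distrib]
  apply Finset.prod_congr rfl
  intro i _
  rw [Fin.prod_univ_castSucc, if_pos (Fin.castSucc_lt_last i)]
  congr 1

/-- the last column is factored out, row differences -/
theorem AR_succ {n : ℕ} (ν x : Fin (n + 1) → ℝ) (hx : ∀ i, 0 < x i) :
    AR ν x = (∏ i, x i ^ ν (Fin.last n)) * Matrix.det (Matrix.of fun i j : Fin n =>
      x i.castSucc ^ (ν j.castSucc - ν (Fin.last n)) - x i.succ ^ (ν j.castSucc - ν (Fin.last n))) := by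
  set κ := ν (Fin.last n) with hκ
  have h1 : AR ν x = (∏ i, x i ^ κ) * Matrix.det (Matrix.of fun i j => x i ^ (ν j - κ)) := by
    rw [← Matrix.det_mul_column]
    unfold AR
    congr 1
    ext i j
    simp only [Matrix.of_apply]
    rw [← Real.rpow_add (hx i)]
    congr 1
    ring
  rw [h1]
  congr 1
  set N : Matrix (Fin (n + 1)) (Fin (n + 1)) ℝ := Matrix.of fun i j => x i ^ (ν j - κ) with hN
  set B : Matrix (Fin (n + 1)) (Fin (n + 1)) ℝ :=
    Matrix.of (Fin.cons (N 0) (fun i : Fin n => fun j => N i.succ j - N i.castSucc j)) with hB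
  have h2 : N.det = B.det := by
    apply Matrix.det_eq_of_forall_row_eq_smul_add_pred (fun _ => (1 : ℝ))
    · intro j
      simp [hB]
    · intro i j
      simp [hB]
  rw [h2, Matrix.det_succ_column B (Fin.last n), Fin.sum_univ_succ]
  have h3 : ∑ i : Fin n, (-1 : ℝ) ^ ((i.succ : ℕ) + (Fin.last n : ℕ)) * B i.succ (Fin.last n) *
      (B.submatrix i.succ.succAbove (Fin.last n).succAbove).det = 0 := by
    apply Finset.sum_eq_zero
    intro i _
    have : B i.succ (Fin.last n) = 0 := by
      simp [hB, hN, ← hκ]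
    rw [this]
    ring
  rw [h3, add_zero]
  have h4 : B 0 (Fin.last n) = 1 := by
    simp [hB, hN, ← hκ]
  have h5 : B.submatrix (Fin.succAbove 0) (Fin.last n).succAbove =
      - (Matrix.of fun i j : Fin n => x i.castSucc ^ (ν j.castSucc - κ) - x i.succ ^ (ν j.castSucc - κ)) := by
    ext i j
    simp [hB, hN]
  rw [h4, h5, Matrix.det_neg]
  simp only [Fintype.card_fin, Fin.val_zero, Fin.val_last, zero_add, mul_one]
  rw [← mul_assoc, ← mul_pow]
  norm_num

/-- convexity of `sinh` -/
theorem sinh_mono {a s t : ℝ} (ha : 0 ≤ a) (hs : 0 ≤ s) (hst : s ≤ t) : t * Real.sinh (a * s) ≤ s * Real.sinh (a * t) := by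
  have hconv : ConvexOn ℝ (Set.Ici 0) Real.sinh := by
    apply convexOn_of_deriv2_nonneg (convex_Ici 0) Real.continuous_sinh.continuousOn
      Real.differentiable_sinh.differentiableOn
    · rw [Real.deriv_sinh]
      exact Real.differentiable_cosh.differentiableOn
    · intro x hx
      rw [interior_Ici] at hx
      simp only [Function.iterate_succ, Function.iterate_zero, Function.comp, id, Real.deriv_sinh, Real.deriv_cosh]
      exact (Real.sinh_pos_iff.2 hx).le
  rcases eq_or_lt_of_le (hs.trans hst) with h0 | ht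
  · have hs0 : s = 0 := le_antisymm (hst.trans h0.symm.le) hs
    rw [hs0, ← h0]
  have h := hconv.2 (Set.mem_Ici.2 (mul_nonneg ha ht.le)) (Set.mem_Ici.2 (le_refl (0 : ℝ)))
    (div_nonneg hs ht.le) (sub_nonneg.2 ((div_le_one ht).2 hst)) (by ring : s / t + (1 - s / t) = 1)
  simp only [smul_eq_mul, mul_zero, add_zero, Real.sinh_zero] at h
  have e : s / t * (a * t) = a * s := by
    field_simp
  rw [e] at h
  calc t * Real.sinh (a * s) ≤ t * (s / t * Real.sinh (a * t)) := mul_le_mul_of_nonneg_left h ht.le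
    _ = s * Real.sinh (a * t) := by
      field_simp

/-- the claim in the two-dimensional case -/
theorem base (ν₁ ν₂ x : Fin 2 → ℝ) (c s₁ s₂ : ℝ) (hs₁ : 0 ≤ s₁) (hs : s₁ ≤ s₂)
    (h10 : ν₁ 0 = c + s₁) (h11 : ν₁ 1 = c - s₁) (h20 : ν₂ 0 = c + s₂) (h21 : ν₂ 1 = c - s₂)
    (hx : StrictAnti x) (hx0 : ∀ i, 0 < x i) :
    0 ≤ Dl ν₁ * AR ν₂ x - Dl ν₂ * AR ν₁ x := by
  have hD : ∀ ν : Fin 2 → ℝ, Dl ν = ν 0 - ν 1 := by
    intro ν
    rw [Dl_succ]
    simp [Dl]
  have hx01 : x 1 < x 0 := hx (by decide)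
  have hA : ∀ (ν : Fin 2 → ℝ) (s : ℝ), ν 0 = c + s → ν 1 = c - s →
      AR ν x = (x 0 * x 1) ^ c * (2 * Real.sinh ((Real.log (x 0) - Real.log (x 1)) * s)) := by
    intro ν s h0 h1
    unfold AR
    rw [Matrix.det_fin_two]
    simp only [Matrix.of_apply, h0, h1]
    have e : ∀ (i : Fin 2) (r : ℝ), x i ^ r = Real.exp (Real.log (x i) * r) := fun i r => Real.rpow_def_of_pos (hx0 i) r
    rw [Real.mul_rpow (hx0 0).le (hx0 1).le, Real.sinh_eq, e, e, e, e, e, e]
    rw [mul_div_cancel₀ _ (two_ne_zero), mul_sub (Real.exp _ * Real.exp _), ← Real.exp_add, ← Real.exp_add,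
      ← Real.exp_add, ← Real.exp_add, ← Real.exp_add]
    congr 2 <;> ring
  rw [hD, hD, hA ν₁ s₁ h10 h11, hA ν₂ s₂ h20 h21, h10, h11, h20, h21]
  have hl : 0 ≤ Real.log (x 0) - Real.log (x 1) := sub_nonneg.2 (Real.log_le_log (hx0 1) hx01.le)
  have := sinh_mono hl hs₁ hs
  have hp : 0 < (x 0 * x 1) ^ c := Real.rpow_pos_of_pos (mul_pos (hx0 0) (hx0 1)) c
  have : 0 ≤ (x 0 * x 1) ^ c * (s₁ * Real.sinh ((Real.log (x 0) - Real.log (x 1)) * s₂) -
      s₂ * Real.sinh ((Real.log (x 0) - Real.log (x 1)) * s₁)) := mul_nonneg hp.le (sub_nonneg.2 this)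
  linarith

/-- the general case: the exponents differ at the places `0` and `1` -/
theorem claim (n : ℕ) : ∀ (ν₁ ν₂ x : Fin (n + 2) → ℝ) (c s₁ s₂ : ℝ), 0 ≤ s₁ → s₁ ≤ s₂ →
    ν₁ 0 = c + s₁ → ν₁ 1 = c - s₁ → ν₂ 0 = c + s₂ → ν₂ 1 = c - s₂ → (∀ j, j ≠ 0 → j ≠ 1 → ν₁ j = ν₂ j) →
    StrictAnti x → (∀ i, 0 < x i) → 0 ≤ Dl ν₁ * Dl ν₂ * (Dl ν₁ * AR ν₂ x - Dl ν₂ * AR ν₁ x) := by
  induction n with
  | zero =>
    intro ν₁ ν₂ x c s₁ s₂ hs₁ hs h10 h11 h20 h21 _ hx hx0
    apply mul_nonneg _ (base ν₁ ν₂ x c s₁ s₂ hs₁ hs h10 h11 h20 h21 hx hx0)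
    have hD : ∀ ν : Fin 2 → ℝ, Dl ν = ν 0 - ν 1 := by
      intro ν
      rw [Dl_succ]
      simp [Dl]
    have hD' : ∀ ν : Fin (0 + 2) → ℝ, Dl ν = ν 0 - ν 1 := hD
    rw [hD', hD', h10, h11, h20, h21]
    have : c + s₁ - (c - s₁) = 2 * s₁ := by ring
    rw [this]
    have : c + s₂ - (c - s₂) = 2 * s₂ := by ring
    rw [this]
    have := hs₁.trans hs
    positivity
  | succ n ih =>
    intro ν₁ ν₂ x c s₁ s₂ hs₁ hs h10 h11 h20 h21 h12 hx hx0
    have hl0 : (Fin.last (n + 2)) ≠ 0 := by
      intro h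
      have := congrArg Fin.val h
      simp at this
    have hl1 : (Fin.last (n + 2)) ≠ 1 := by
      intro h
      have := congrArg Fin.val h
      simp at this
    have hκ : ν₁ (Fin.last (n + 2)) = ν₂ (Fin.last (n + 2)) := h12 _ hl0 hl1
    set κ := ν₂ (Fin.last (n + 2)) with hκd
    set D₁ := Dl (fun i : Fin (n + 2) => ν₁ i.castSucc) with hD₁
    set D₂ := Dl (fun i : Fin (n + 2) => ν₂ i.castSucc) with hD₂
    set P₁ := ∏ i : Fin (n + 2), (ν₁ i.castSucc - κ) with hP₁
    set P₂ := ∏ i : Fin (n + 2), (ν₂ i.castSucc - κ) with hP₂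
    have e1 : Dl ν₁ = D₁ * P₁ := by
      rw [Dl_succ, hκ]
    have e2 : Dl ν₂ = D₂ * P₂ := by
      rw [Dl_succ]
    set K := ∏ i, x i ^ κ with hK
    have hKpos : 0 < K := Finset.prod_pos (fun i _ => Real.rpow_pos_of_pos (hx0 i) κ)
    have a1 := AR_succ ν₁ x hx0
    have a2 := AR_succ ν₂ x hx0
    rw [hκ] at a1
    rw [← hκd] at a2
    let ν : Bool → Fin (n + 3) → ℝ := fun q => cond q ν₂ ν₁
    have hm := mono (κ := Bool) (n := n + 2)
      (fun q => cond q (Dl ν₁ * Dl ν₂ * Dl ν₁ * K) (-(Dl ν₁ * Dl ν₂ * Dl ν₂ * K)))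
      (fun q j t => t ^ (ν q j.castSucc - κ))
      (fun q j t => (ν q j.castSucc - κ) * t ^ (ν q j.castSucc - κ - 1))
      (fun i => x i.castSucc) (fun i => x i.succ)
      (fun i => hx (Fin.castSucc_lt_succ))
      (fun q j i t h1 _ => Real.hasDerivAt_rpow_const (Or.inl (ne_of_gt (lt_of_lt_of_le (hx0 _) h1))))
      (by
        intro u hu
        have hu0 : ∀ i, 0 < u i := fun i => lt_trans (hx0 _) (hu i).1
        have hua : StrictAnti u := by
          intro i j hij
          have : i.succ ≤ j.castSucc := by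
            rw [Fin.le_def]
            simp only [Fin.val_succ, Fin.val_castSucc]
            exact hij
          exact lt_of_lt_of_le (hu j).2 ((hx.antitone this).trans (hu i).1.le)
        have hI := ih (fun i => ν₁ i.castSucc) (fun i => ν₂ i.castSucc) u c s₁ s₂ hs₁ hs
          (by simpa using h10) (by simpa using h11) (by simpa using h20) (by simpa using h21)
          (by
            intro j hj0 hj1
            apply h12
            · intro h
              apply hj0
              apply Fin.castSucc_injective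
              simpa using h
            · intro h
              apply hj1
              apply Fin.castSucc_injective
              simpa using h) hua hu0
        set W := ∏ i, u i ^ (- κ - 1) with hW
        have hWpos : 0 < W := Finset.prod_pos (fun i _ => Real.rpow_pos_of_pos (hu0 i) _)
        have hdet : ∀ q, Matrix.det (Matrix.of fun i j : Fin (n + 2) =>
            (ν q j.castSucc - κ) * u i ^ (ν q j.castSucc - κ - 1)) =
            (∏ i : Fin (n + 2), (ν q i.castSucc - κ)) * (W * AR (fun i => ν q i.castSucc) u) := by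
          intro q
          unfold AR
          rw [hW, ← Matrix.det_mul_column, ← Matrix.det_mul_row]
          congr 1
          ext i j
          simp only [Matrix.of_apply]
          rw [← Real.rpow_add (hu0 i)]
          congr 2
          ring
        rw [Fintype.sum_bool]
        simp only [hdet]
        show 0 ≤ (Dl ν₁ * Dl ν₂ * Dl ν₁ * K) * (P₂ * (W * AR (fun i => ν₂ i.castSucc) u)) +
          -(Dl ν₁ * Dl ν₂ * Dl ν₂ * K) * (P₁ * (W * AR (fun i => ν₁ i.castSucc) u))
        rw [e1, e2]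
        have : D₁ * P₁ * (D₂ * P₂) * (D₁ * P₁) * K * (P₂ * (W * AR (fun i => ν₂ i.castSucc) u)) +
          -(D₁ * P₁ * (D₂ * P₂) * (D₂ * P₂) * K) * (P₁ * (W * AR (fun i => ν₁ i.castSucc) u)) =
          K * W * (P₁ * P₂) ^ 2 * (D₁ * D₂ * (D₁ * AR (fun i => ν₂ i.castSucc) u -
            D₂ * AR (fun i => ν₁ i.castSucc) u)) := by ring
        rw [this]
        have h0 : 0 ≤ K * W * (P₁ * P₂) ^ 2 := by positivity
        exact mul_nonneg h0 hI)
    rw [Fintype.sum_bool] at hm
    refine le_of_le_of_eq hm ?_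
    rw [a1, a2]
    show (Dl ν₁ * Dl ν₂ * Dl ν₁ * K) * Matrix.det (Matrix.of fun i j : Fin (n + 2) =>
        x i.castSucc ^ (ν₂ j.castSucc - κ) - x i.succ ^ (ν₂ j.castSucc - κ)) +
      -(Dl ν₁ * Dl ν₂ * Dl ν₂ * K) * Matrix.det (Matrix.of fun i j : Fin (n + 2) =>
        x i.castSucc ^ (ν₁ j.castSucc - κ) - x i.succ ^ (ν₁ j.castSucc - κ)) = _
    ring

/-- a permutation with two prescribed values -/
theorem exists_perm {n : ℕ} (i j : Fin (n + 2)) (hij : i ≠ j) :
    ∃ σ : Equiv.Perm (Fin (n + 2)), σ 0 = i ∧ σ 1 = j := by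
  set τ : Equiv.Perm (Fin (n + 2)) := Equiv.swap 0 i with hτ
  have t0 : τ 0 = i := Equiv.swap_apply_left 0 i
  have ti : τ i = 0 := Equiv.swap_apply_right 0 i
  have hj : (0 : Fin (n + 2)) ≠ τ j := by
    intro h
    apply hij
    apply τ.injective
    rw [ti]
    exact h
  have h01 : (0 : Fin (n + 2)) ≠ 1 := by
    intro h
    have := congrArg Fin.val h
    simp at this
  have e0 : Equiv.swap 1 (τ j) 0 = 0 := Equiv.swap_apply_of_ne_of_ne h01 hj
  have e1 : Equiv.swap 1 (τ j) 1 = τ j := Equiv.swap_apply_left _ _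
  refine ⟨τ * Equiv.swap 1 (τ j), ?_, ?_⟩
  · rw [Equiv.Perm.mul_apply, e0, t0]
  · rw [Equiv.Perm.mul_apply, e1]
    exact Equiv.swap_apply_self _ _ _

/-- the alternant `det (x_i ^ μ_j)` -/
noncomputable def Al {d : ℕ} (μ : Fin d → ℕ) (x : Fin d → ℝ) : ℝ :=
  Matrix.det (Matrix.of fun i j => x i ^ μ j)

/-- `m + e_i` -/
def up {d : ℕ} (m : Fin d → ℕ) (i : Fin d) : Fin d → ℕ := Function.update m i (m i + 1)

/-- the vector of real numbers of `m` -/
noncomputable def rl {d : ℕ} (m : Fin d → ℕ) : Fin d → ℝ := fun i => (m i : ℝ)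

theorem Al_eq {d : ℕ} (m : Fin d → ℕ) (x : Fin d → ℝ) : Al m x = AR (rl m) x := by
  unfold Al AR rl
  congr 1
  ext i j
  simp

theorem Al_zero {d : ℕ} (m : Fin d → ℕ) (x : Fin d → ℝ) (h : Dl (rl m) = 0) : Al m x = 0 := by
  unfold Dl at h
  obtain ⟨i, _, hi⟩ := Finset.prod_eq_zero_iff.1 h
  obtain ⟨j, hj, hij⟩ := Finset.prod_eq_zero_iff.1 hi
  have h1 : m i = m j := by
    unfold rl at hij
    have := sub_eq_zero.1 hij
    exact_mod_cast this
  unfold Al
  apply Matrix.det_zero_of_column_eq (i := i) (j := j) (ne_of_lt (Finset.mem_Ioi.1 hj))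
  intro k
  simp [h1]

theorem Dl_nonneg {d : ℕ} (m : Fin d → ℕ) (h : Antitone m) : 0 ≤ Dl (rl m) := by
  unfold Dl
  apply Finset.prod_nonneg
  intro i _
  apply Finset.prod_nonneg
  intro j hj
  have := h (Finset.mem_Ioi.1 hj).le
  unfold rl
  have h2 : (m j : ℝ) ≤ m i := by exact_mod_cast this
  linarith

theorem up_anti {d : ℕ} (m : Fin d → ℕ) (h : StrictAnti m) (i : Fin d) : Antitone (up m i) := by
  intro a b hab
  rcases eq_or_lt_of_le hab with rfl | hlt
  · exact le_refl _
  have h1 := h hlt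
  unfold up
  by_cases ha : a = i
  · subst ha
    have hb : b ≠ a := ne_of_gt hlt
    rw [Function.update_of_ne hb, Function.update_self]
    omega
  · rw [Function.update_of_ne ha]
    by_cases hb : b = i
    · subst hb
      rw [Function.update_self]
      omega
    · rw [Function.update_of_ne hb]
      omega

/-- normalised alternants are monotone -/
theorem sra (d : ℕ) (μ : Fin d → ℕ) (x : Fin d → ℝ) (hμ : StrictAnti μ) (hx : StrictAnti x)
    (hx0 : ∀ i, 0 < x i) (i j : Fin d) (hij : i < j) :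
    Al (up μ j) x * Dl (rl (up μ i)) ≤ Al (up μ i) x * Dl (rl (up μ j)) := by
  obtain ⟨n, rfl⟩ : ∃ n, d = n + 2 := by
    have h1 := j.2
    have h2 : (i : ℕ) < j := hij
    exact ⟨d - 2, by omega⟩
  obtain ⟨σ, h0, h1⟩ := exists_perm i j (ne_of_lt hij)
  have hne : i ≠ j := ne_of_lt hij
  have hμij : μ j < μ i := hμ hij
  have hμr : (μ j : ℝ) + 1 ≤ μ i := by exact_mod_cast hμij
  have hc := claim n (fun l => rl (up μ j) (σ l)) (fun l => rl (up μ i) (σ l)) x (((μ i : ℝ) + μ j + 1) / 2)
    (((μ i : ℝ) - μ j - 1) / 2) (((μ i : ℝ) - μ j + 1) / 2) (by linarith) (by linarith)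
    (by
      show rl (up μ j) (σ 0) = _
      rw [h0]
      unfold rl up
      rw [Function.update_of_ne hne]
      ring)
    (by
      show rl (up μ j) (σ 1) = _
      rw [h1]
      unfold rl up
      rw [Function.update_self]
      push_cast
      ring)
    (by
      show rl (up μ i) (σ 0) = _
      rw [h0]
      unfold rl up
      rw [Function.update_self]
      push_cast
      ring)
    (by
      show rl (up μ i) (σ 1) = _
      rw [h1]
      unfold rl up
      rw [Function.update_of_ne hne.symm]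
      ring)
    (by
      intro l hl0 hl1
      have e0 : σ l ≠ i := by
        rw [← h0]
        exact fun h => hl0 (σ.injective h)
      have e1 : σ l ≠ j := by
        rw [← h1]
        exact fun h => hl1 (σ.injective h)
      show rl (up μ j) (σ l) = rl (up μ i) (σ l)
      unfold rl up
      rw [Function.update_of_ne e0, Function.update_of_ne e1])
    hx hx0
  rw [Dl_perm, Dl_perm, AR_perm, AR_perm, ← Al_eq, ← Al_eq] at hc
  have hsg : ((Equiv.Perm.sign σ : ℤ) : ℝ) ^ 2 = 1 := by
    rcases Int.units_eq_one_or (Equiv.Perm.sign σ) with h | h <;> rw [h] <;> simp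
  have hc2 : 0 ≤ Dl (rl (up μ j)) * Dl (rl (up μ i)) *
      (Dl (rl (up μ j)) * Al (up μ i) x - Dl (rl (up μ i)) * Al (up μ j) x) := by
    refine le_of_le_of_eq hc ?_
    set g : ℝ := ((Equiv.Perm.sign σ : ℤ) : ℝ)
    have : ∀ a b y z : ℝ, g * a * (g * b) * (g * a * (g * y) - g * b * (g * z)) =
        (g ^ 2) ^ 2 * (a * b * (a * y - b * z)) := by
      intro a b y z
      ring
    rw [this, hsg, one_pow, one_mul]
  rcases eq_or_lt_of_le (Dl_nonneg _ (up_anti μ hμ i)) with hi | hi
  · rw [← hi, Al_zero _ x hi.symm]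
    simp
  rcases eq_or_lt_of_le (Dl_nonneg _ (up_anti μ hμ j)) with hj | hj
  · rw [← hj, Al_zero _ x hj.symm]
    simp
  have := (mul_nonneg_iff_of_pos_left (mul_pos hj hi)).1 hc2
  linarith

end Pool.Agent.J4H26.QB
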