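import Pool.Agent.J4H61.QB.Stm4
import Pool.Agent.J4H26.QB.SraCore

set_option autoImplicit false

namespace Pool.Agent.J4H26.QB

/-- (SRA) normalised alternants are monotone -/
theorem t_SRA : Pool.Agent.J4H61.QB.S_SRA := fun d μ x hμ hx hx0 i j hij => sra d μ x hμ hx hx0 i j hij

end Pool.Agent.J4H26.QB
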